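import Pool.Agent.Run7.h671.EGen

/-!
# Powers `(n √2) ^ x` and `n ^ x √2 ^ y` with exponents which are polynomials or rational functions in
# `z = √2 ^ √2`

The number `w = √2 ^ z` is the member `n = 1`, `x = z` of the family `(n √2) ^ x`. The exponents `x` are
here the numbers `β z + γ`, or `P(z)`, or `P(z) / Q(z)`, for arbitrary algebraic coefficients and bounded
degree; all these powers are transcendental for all but few of the bases. The same holds for the
products `n ^ x √2 ^ y e ^ u (e ^ π) ^ v`, and for further fixed real algebraic bases in place of `√2`.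

The proof. Let `V` be the space of the linear forms in `1` and logarithms of algebraic numbers, with
algebraic coefficients. Suppose that `x_i log a_i + ∑ y_(i,j) o_j` is in `V` for `i = 1, ..., m`, where the
`x_i`, `y_(i,j)` are values of polynomials of degree at most `D`, with a common denominator for each `i`,
and the `o_j` are fixed elements of `V` (`1`, `π`, `log √2`). The relations
`b (P_i log a_i + ∑ S_(i,j) o_j - Q_i λ_i) = 0`, `b` a polynomial of degree less than `D`, are relations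
between elements of a space of dimension `d`, whose coefficients are in `V`; by the hyperplane case of the
linear subgroup theorem of Waldschmidt and Roy (starting files) at most `d (d - 1)` of them are linearly
independent. The columns and the `log a_i` are independent by Baker's theorem.
-/

set_option autoImplicit false

namespace Pool.Agent.Results.MP_93d8d2_nt.BasesAndExponentsInQbarZ

open Module Finset
open Pool.Agent.HP778 hiding IsQuot
open Pool.Agent.H301R2.SSE (Lt)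
open Pool.Agent.Run7.h671.EX

/-- The linear combinations, with algebraic coefficients, of `1` and of logarithms of algebraic
numbers. -/
noncomputable def LogForms : Submodule (algebraicClosure ℚ ℂ) ℂ :=
  Submodule.span (algebraicClosure ℚ ℂ) ({1} ∪ {z : ℂ | IsAlgebraic ℚ (Complex.exp z)})

/-- The numbers `e ^ z` with `z` in `LogForms`, i.e. the numbers `e ^ γ α_1 ^ β_1 ⋯ α_k ^ β_k` with
algebraic `γ`, `α_i ≠ 0`, `β_i`. -/
def Prods : Set ℂ := {w | ∃ z ∈ LogForms, Complex.exp z = w}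

/-- some power `a ^ x` with an exponent `x` in `E` is in `Prods` -/
def BadPow (E : Set ℂ) (a : ℝ) : Prop := ∃ x ∈ E, (a : ℂ) ^ x ∈ Prods

/-- `a_1, ..., a_m` are multiplicatively independent positive real algebraic numbers -/
def MultIndep {m : ℕ} (a : Fin m → ℝ) : Prop :=
  (∀ i, 0 < a i) ∧ (∀ i, IsAlgebraic ℚ (a i)) ∧ ∀ c : Fin m → ℤ, ∏ i, a i ^ c i = 1 → c = 0

/-- For all but few bases `a` NO power with exponent in `E` is in `Prods`: at most `r` multiplicatively
independent positive real algebraic numbers `a` are bad; and for every positive real algebraic `α`, at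
most `(log₂ N + 1) ^ r` of the numbers `n α` with `1 ≤ n ≤ N` are bad. -/
def FewPowers (E : Set ℂ) (r : ℕ) : Prop :=
  (∀ (m : ℕ) (a : Fin m → ℝ), MultIndep a → (∀ i, BadPow E (a i)) → m ≤ r) ∧
  ∀ α : ℝ, 0 < α → IsAlgebraic ℚ α → ∀ N : ℕ,
    {n : ℕ | 1 ≤ n ∧ n ≤ N ∧ BadPow E (n * α)}.ncard ≤ (Nat.log 2 N + 1) ^ r

/-- some product `a ^ x g_1 ^ {y_1} ⋯ g_s ^ {y_s} e ^ u (e ^ π) ^ v` with exponents `(x, y, u, v)` in `E`
is in `Prods` -/
def BadProd {s : ℕ} (g : Fin s → ℝ) (E : Set (ℂ × (Fin s → ℂ) × ℂ × ℂ)) (a : ℝ) : Prop :=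
  ∃ t ∈ E, (a : ℂ) ^ t.1 * (∏ j, (g j : ℂ) ^ t.2.1 j) * Complex.exp t.2.2.1 *
    Complex.exp (Real.pi * t.2.2.2) ∈ Prods

/-- For all but few bases `a` NO product `a ^ x g_1 ^ {y_1} ⋯ g_s ^ {y_s} e ^ u (e ^ π) ^ v` with exponents
in `E` is in `Prods`: if `g_1, ..., g_s, a_1, ..., a_m` are multiplicatively independent and all the `a_i`
are bad, then `m ≤ r`; and at most `(log₂ N + 1) ^ (r + s)` integers `a` with `1 ≤ a ≤ N` are bad. -/
def FewProds {s : ℕ} (g : Fin s → ℝ) (E : Set (ℂ × (Fin s → ℂ) × ℂ × ℂ)) (r : ℕ) : Prop :=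
  (∀ (m : ℕ) (a : Fin m → ℝ), MultIndep (Fin.append g a) → (∀ i, BadProd g E (a i)) → m ≤ r) ∧
  ∀ N : ℕ, {n : ℕ | 1 ≤ n ∧ n ≤ N ∧ BadProd g E n}.ncard ≤ (Nat.log 2 N + 1) ^ (r + s)

/-- the exponents `β x + γ` with algebraic `β ≠ 0` and algebraic `γ` -/
def affine (x : ℂ) : Set ℂ :=
  {y | ∃ β γ : ℂ, IsAlgebraic ℚ β ∧ β ≠ 0 ∧ IsAlgebraic ℚ γ ∧ y = β * x + γ}

/-- the values at `x` of the polynomials of degree at least `1` and at most `D` with algebraic
coefficients -/
def polys (x : ℂ) (D : ℕ) : Set ℂ :=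
  {y | ∃ P : Polynomial (algebraicClosure ℚ ℂ), 1 ≤ P.natDegree ∧ P.natDegree ≤ D ∧
    y = Polynomial.aeval x P}

/-- the values at `t` of the polynomials with algebraic coefficients of degree at most `D` in each of the
`r` variables -/
def vals {r : ℕ} (t : Fin r → ℂ) (D : ℕ) : Set ℂ :=
  {y | ∃ P : MvPolynomial (Fin r) (algebraicClosure ℚ ℂ), (∀ i, P.degreeOf i ≤ D) ∧
    y = MvPolynomial.aeval t P}

/-- the transcendental numbers `p / q` with `p` and `q ≠ 0` in `vals t D` -/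
def rats {r : ℕ} (t : Fin r → ℂ) (D : ℕ) : Set ℂ :=
  {y | Transcendental ℚ y ∧ ∃ q ∈ vals t D, q ≠ 0 ∧ y * q ∈ vals t D}

/-- the values at `x` of the polynomials of degree at most `D` with algebraic coefficients -/
def polys₀ (x : ℂ) (D : ℕ) : Set ℂ :=
  {y | ∃ P : Polynomial (algebraicClosure ℚ ℂ), P.natDegree ≤ D ∧ y = Polynomial.aeval x P}

/-- the exponents `(x, y, u, v)` with `x` in `polys t D`, and with `y_j`, `u`, `v` in `polys₀ t D` -/
def polyExps (s : ℕ) (t : ℂ) (D : ℕ) : Set (ℂ × (Fin s → ℂ) × ℂ × ℂ) :=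
  {e | e.1 ∈ polys t D ∧ (∀ j, e.2.1 j ∈ polys₀ t D) ∧ e.2.2.1 ∈ polys₀ t D ∧
    e.2.2.2 ∈ polys₀ t D}

/-- the exponents `(x, y, u, v)`, `x` transcendental, which are quotients of elements of `vals t D` with a
common denominator -/
def ratExps (s : ℕ) {r : ℕ} (t : Fin r → ℂ) (D : ℕ) : Set (ℂ × (Fin s → ℂ) × ℂ × ℂ) :=
  {e | Transcendental ℚ e.1 ∧ ∃ q ∈ vals t D, q ≠ 0 ∧ e.1 * q ∈ vals t D ∧
    (∀ j, e.2.1 j * q ∈ vals t D) ∧ e.2.2.1 * q ∈ vals t D ∧ e.2.2.2 * q ∈ vals t D}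

theorem ofReal_cpow' {a : ℝ} (ha : 0 < a) (x : ℂ) :
    (a : ℂ) ^ x = Complex.exp (x * ((Real.log a : ℝ) : ℂ)) := by
  rw [Complex.cpow_def_of_ne_zero (by exact_mod_cast ha.ne'), Complex.ofReal_log ha.le, mul_comm]

theorem mem_pow {E : Set ℂ} {a : ℝ} (ha : 0 < a) (h : BadPow E a) :
    ∃ x ∈ E, x * ((Real.log a : ℝ) : ℂ) ∈ Lt := by
  obtain ⟨x, hx, z, hz, hze⟩ := h
  rw [ofReal_cpow' ha] at hze
  exact ⟨x, hx, mem_of_exp hz hze.symm⟩

/-- the exponents of the columns `1`, `π`, `log g_j` -/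
def yv {s : ℕ} (t : ℂ × (Fin s → ℂ) × ℂ × ℂ) : Fin 2 ⊕ Fin s → ℂ :=
  Sum.elim ![t.2.2.1, t.2.2.2] t.2.1

theorem mem_prod {s : ℕ} {g : Fin s → ℝ} (hg : ∀ j, 0 < g j) {E : Set (ℂ × (Fin s → ℂ) × ℂ × ℂ)}
    {a : ℝ} (ha : 0 < a) (h : BadProd g E a) :
    ∃ t ∈ E, t.1 * ((Real.log a : ℝ) : ℂ) +
      ∑ j, yv t j * cols (fun j => Real.log (g j)) j ∈ Lt := by
  obtain ⟨t, ht, z, hz, hze⟩ := h
  have h0 : ∏ j, (g j : ℂ) ^ t.2.1 j =
      Complex.exp (∑ j, t.2.1 j * ((Real.log (g j) : ℝ) : ℂ)) := by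
    rw [Complex.exp_sum]
    exact Finset.prod_congr rfl fun j _ => ofReal_cpow' (hg j) _
  rw [ofReal_cpow' ha, h0, ← Complex.exp_add, ← Complex.exp_add, ← Complex.exp_add] at hze
  refine ⟨t, ht, ?_⟩
  have h1 := mem_of_exp hz hze.symm
  have h2 : t.1 * ((Real.log a : ℝ) : ℂ) +
      ∑ j, yv t j * cols (fun j => Real.log (g j)) j =
      t.1 * ((Real.log a : ℝ) : ℂ) + (∑ j, t.2.1 j * ((Real.log (g j) : ℝ) : ℂ)) +
        t.2.2.1 + (Real.pi : ℂ) * t.2.2.2 := by
    rw [Fintype.sum_sum_type, Fin.sum_univ_two]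
    simp only [yv, cols, Sum.elim_inl, Sum.elim_inr, Matrix.cons_val_zero, Matrix.cons_val_one]
    ring
  rw [h2]
  exact h1

/-- bounds for the number of independent elements of `LogForms` give `FewPowers` -/
theorem fewPowers_of {E : Set ℂ} {r : ℕ}
    (h : ∀ (m : ℕ) (l : Fin m → ℂ), LinearIndependent (algebraicClosure ℚ ℂ) l →
      (∀ i, l i ∈ Lt) → (∀ i, ∃ x ∈ E, x * l i ∈ Lt) → m ≤ r) : FewPowers E r := by
  refine ⟨fun m a ⟨ha, ha', hm⟩ hi => ?_, fun α hα hα' N => ?_⟩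
  · exact h m (fun i => ((Real.log (a i) : ℝ) : ℂ))
      (indep_QB (fun i => exp_log_real (ha i) (ha' i)) (real_log_indep a ha hm))
      (fun i => Pool.Agent.H301R2.SSE.Lt_log (exp_log_real (ha i) (ha' i)))
      fun i => mem_pow (ha i) (hi i)
  · refine shift_count _ hα hα' (fun m l hl hli hn => ?_) N
    refine h m l (indep_QB hl hli) (fun i => Pool.Agent.H301R2.SSE.Lt_log (hl i)) fun i => ?_
    obtain ⟨n, hn1, hln, hn2⟩ := hn i
    rw [hln]
    exact mem_pow (mul_pos (by exact_mod_cast hn1) hα) hn2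

/-- bounds for the number of independent logarithms give `FewProds` -/
theorem fewProds_of {s : ℕ} {g : Fin s → ℝ} (hg : MultIndep g)
    {E : Set (ℂ × (Fin s → ℂ) × ℂ × ℂ)} {r : ℕ}
    (h : ∀ (m : ℕ) (l : Fin m → ℝ), (∀ i, IsAlgebraic ℚ (Complex.exp (l i : ℂ))) →
      LinearIndependent ℚ (Sum.elim (fun j => ((Real.log (g j) : ℝ) : ℂ)) fun i => (l i : ℂ)) →
      (∀ i, ∃ t ∈ E, t.1 * (l i : ℂ) + ∑ j, yv t j * cols (fun j => Real.log (g j)) j ∈ Lt) →
      m ≤ r) : FewProds g E r := by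
  refine ⟨fun m a hga hi => ?_, fun N => ?_⟩
  · have ha : ∀ i, 0 < a i := fun i => by
      have h1 := hga.1 (Fin.natAdd s i)
      rwa [Fin.append_right] at h1
    have ha' : ∀ i, IsAlgebraic ℚ (a i) := fun i => by
      have h1 := hga.2.1 (Fin.natAdd s i)
      rwa [Fin.append_right] at h1
    refine h m (fun i => Real.log (a i)) (fun i => exp_log_real (ha i) (ha' i)) ?_
      fun i => mem_prod hg.1 (ha i) (hi i)
    have h1 := real_log_indep _ hga.1 hga.2.2
    have h3 := h1.comp _ (finSumFinEquiv (m := s) (n := m)).injective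
    have e : (Sum.elim (fun j => ((Real.log (g j) : ℝ) : ℂ))
        fun i => ((Real.log (a i) : ℝ) : ℂ)) =
        (fun i => ((Real.log (Fin.append g a i) : ℝ) : ℂ)) ∘ finSumFinEquiv := by
      funext k
      rcases k with k | k
      · rw [Function.comp_apply, finSumFinEquiv_apply_left, Fin.append_left]
        rfl
      · rw [Function.comp_apply, finSumFinEquiv_apply_right, Fin.append_right]
        rfl
    rw [e]
    exact h3
  · have h1 := cols_count (r := r) (fun j => Real.log (g j)) (real_log_indep g hg.1 hg.2.2)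
      (fun n => 1 ≤ n ∧ BadProd g E n) (fun m l hl hli hn => ?_) N
    · refine le_trans (le_of_eq ?_) h1
      congr 1
      ext n
      constructor
      · rintro ⟨h1, h2, h3⟩
        exact ⟨h1, h2, h1, h3⟩
      · rintro ⟨h1, h2, -, h3⟩
        exact ⟨h1, h2, h3⟩
    · refine h m l hl hli fun i => ?_
      obtain ⟨n, hln, hn1, hn2⟩ := hn i
      rw [hln]
      exact mem_prod hg.1 (by exact_mod_cast hn1) hn2

/-- `β x + γ` is the value of a polynomial of degree one -/
theorem affine_poly {x y : ℂ} (h : y ∈ affine x) : ∃ P : Polynomial (algebraicClosure ℚ ℂ),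
    1 ≤ P.natDegree ∧ P.natDegree ≤ 1 ∧ y = Polynomial.aeval x P := by
  obtain ⟨β, γ, hβ, hβ0, hγ, rfl⟩ := h
  let b : algebraicClosure ℚ ℂ := ⟨β, mem_algebraicClosure_iff.2 hβ⟩
  let c : algebraicClosure ℚ ℂ := ⟨γ, mem_algebraicClosure_iff.2 hγ⟩
  have hb : b ≠ 0 := fun h => hβ0 (congrArg Subtype.val h)
  refine ⟨Polynomial.C b * Polynomial.X + Polynomial.C c, ?_, ?_, ?_⟩
  · rw [Polynomial.natDegree_linear hb]
  · rw [Polynomial.natDegree_linear hb]
  · rw [map_add, map_mul, Polynomial.aeval_C, Polynomial.aeval_C, Polynomial.aeval_X]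
    rfl

theorem part_poly {x : ℂ} (hx : Transcendental ℚ x) {D : ℕ} (hD : 1 ≤ D) :
    FewPowers (polys x D) (4 * D - 2) := by
  refine fewPowers_of fun m l hl hlL h => ?_
  exact lt_poly hx hD m l hl hlL fun i => by
    obtain ⟨y, ⟨P, h1, h2, rfl⟩, hy⟩ := h i
    exact ⟨P, h1, h2, hy⟩

theorem part_rat {r : ℕ} (t : Fin r → ℂ) {D : ℕ} (hD : 1 ≤ D) :
    FewPowers (rats t D) (2 * ((4 * D) ^ r - 2 ^ r)) := by
  refine fewPowers_of fun m l hl hlL h => ?_
  exact lt_ratio t hD m l hl hlL fun i => by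
    obtain ⟨y, ⟨hy, q, ⟨Q, hQ, rfl⟩, hq0, ⟨P, hP, he⟩⟩, hyl⟩ := h i
    exact ⟨y, hy, ⟨P, Q, hP, hQ, hq0, by rw [← he, mul_div_cancel_right₀ _ hq0]⟩, hyl⟩

theorem part_polyExps {x : ℂ} (hx : Transcendental ℚ x) {D : ℕ} (hD : 1 ≤ D) {s : ℕ}
    (g : Fin s → ℝ) (hg : MultIndep g) : FewProds g (polyExps s x D) (4 * D - 2) := by
  refine fewProds_of hg fun m l hl hli h => ?_
  have hga : ∀ j, IsAlgebraic ℚ (Complex.exp ((Real.log (g j) : ℝ) : ℂ)) :=
    fun j => exp_log_real (hg.1 j) (hg.2.1 j)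
  refine poly_bound hx hD (fun i => (l i : ℂ)) (cols fun j => Real.log (g j))
    (indep_cols hga hl hli) (cols_mem hga)
    (fun i => Pool.Agent.H301R2.SSE.Lt_log (hl i)) fun i => ?_
  obtain ⟨t, ⟨⟨P, h1, h2, hP⟩, hR, ⟨U, h3, hU⟩, ⟨V, h4, hV⟩⟩, hy⟩ := h i
  choose R hR1 hR2 using hR
  refine ⟨P, Sum.elim ![U, V] R, h1, h2, ?_, ?_⟩
  · rintro (j | j)
    · fin_cases j
      · exact h3
      · exact h4
    · exact hR1 j
  · have e : ∀ j, Polynomial.aeval x ((Sum.elim ![U, V] R) j) = yv t j := by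
      intro j
      rcases j with j | j
      · fin_cases j
        · exact hU.symm
        · exact hV.symm
      · exact (hR2 j).symm
    simp only [e]
    rw [← hP]
    exact hy

theorem part_ratExps {r : ℕ} (x : Fin r → ℂ) {D : ℕ} (hD : 1 ≤ D) {s : ℕ}
    (g : Fin s → ℝ) (hg : MultIndep g) :
    FewProds g (ratExps s x D) (2 * ((4 * D) ^ r - 2 ^ r)) := by
  refine fewProds_of hg fun m l hl hli h => ?_
  have hga : ∀ j, IsAlgebraic ℚ (Complex.exp ((Real.log (g j) : ℝ) : ℂ)) :=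
    fun j => exp_log_real (hg.1 j) (hg.2.1 j)
  refine ratio_bound x hD (fun i => (l i : ℂ)) (cols fun j => Real.log (g j))
    (indep_cols hga hl hli) (cols_mem hga)
    (fun i => Pool.Agent.H301R2.SSE.Lt_log (hl i)) fun i => ?_
  obtain ⟨t, ⟨hx, q, ⟨Q, hQ, rfl⟩, hQ0, ⟨P, hP, hPe⟩, hR, ⟨U, hU, hUe⟩, ⟨V, hV, hVe⟩⟩, hy⟩ := h i
  choose R hR hRe using hR
  have hdiv : ∀ {a b : ℂ}, a * MvPolynomial.aeval x Q = b → a = b / MvPolynomial.aeval x Q :=
    fun h => by rw [← h, mul_div_cancel_right₀ _ hQ0]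
  refine ⟨t.1, yv t, ⟨P, Q, Sum.elim ![U, V] R, hP, hQ, ?_, hQ0, hdiv hPe, ?_⟩, hx, hy⟩
  · rintro (j | j)
    · fin_cases j
      · exact hU
      · exact hV
    · exact hR j
  · rintro (j | j)
    · fin_cases j
      · exact hdiv hUe
      · exact hdiv hVe
    · exact hdiv (hRe j)

/-- **Main result.** Let `α ≠ 1` be a positive real algebraic number and `β` a real algebraic irrational
number (for `w`: `α = β = √2`), `z = α ^ β`, and `D ≥ 1`.

(0) `z` is transcendental.

(1) For all but at most `(log₂ N + 1) ^ 2` of the integers `n` between `1` and `N` the numbers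
`(n α) ^ (b z + c)` are not in `Prods` (in particular transcendental), for all algebraic `b ≠ 0` and `c`;
and among three multiplicatively independent positive real algebraic numbers in place of `n α` one has
this property (`FewPowers`, `r = 2`; `n α` may be replaced by `n α'` for any positive algebraic `α'`). The
same for any transcendental number in place of `z`.

(2) `FewPowers` for the exponents `P(z)`, `P` nonconstant of degree at most `D`, with `r = 4 D - 2`, and for
any transcendental number in place of `z`.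

(3) `FewPowers` for the transcendental exponents `P(z) / Q(z)` with `r = 8 D - 4`, and for the rational
functions of any `k` numbers, of degree at most `D` in each variable, with `r = 2 ((4 D) ^ k - 2 ^ k)`.

(4) `FewProds` for the products `a ^ P(z) g_1 ^ {R_1(z)} ⋯ g_s ^ {R_s(z)} e ^ U(z) (e ^ π) ^ V(z)`, with
polynomials of degree at most `D`, `P` nonconstant, with `r = 4 D - 2`, for all multiplicatively
independent positive real algebraic numbers `g_1, ..., g_s`, and for any transcendental number in place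
of `z`; in particular for `s = 1`, `g_1 = α`.

(5) The same for the exponents which are quotients of values of polynomials at `z` of degree at most `D`
with a common denominator, the exponent of `a` transcendental, with `r = 8 D - 4`; and for the polynomials
in any `k` numbers with `r = 2 ((4 D) ^ k - 2 ^ k)`.

(6) All nonzero algebraic numbers are in `Prods`. -/
theorem result (α β : ℝ) (hα : 0 < α) (hα1 : α ≠ 1) (hα' : IsAlgebraic ℚ α)
    (hβ' : IsAlgebraic ℚ β) (hβ : Irrational β) :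
    Transcendental ℚ ((α ^ β : ℝ) : ℂ) ∧
    (∀ N : ℕ, {n : ℕ | 1 ≤ n ∧ n ≤ N ∧ BadPow (affine ((α ^ β : ℝ) : ℂ)) (n * α)}.ncard ≤
      (Nat.log 2 N + 1) ^ 2) ∧
    (∀ x : ℂ, Transcendental ℚ x → FewPowers (affine x) 2) ∧
    ∀ D : ℕ, 1 ≤ D →
    -- polynomials
    (∀ x : ℂ, Transcendental ℚ x → FewPowers (polys x D) (4 * D - 2)) ∧
    -- rational functions
    (FewPowers (rats ![((α ^ β : ℝ) : ℂ)] D) (8 * D - 4) ∧
      ∀ (k : ℕ) (t : Fin k → ℂ), FewPowers (rats t D) (2 * ((4 * D) ^ k - 2 ^ k))) ∧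
    -- products, polynomials
    (∀ x : ℂ, Transcendental ℚ x → ∀ (s : ℕ) (g : Fin s → ℝ), MultIndep g →
      FewProds g (polyExps s x D) (4 * D - 2)) ∧
    (FewProds ![α] (polyExps 1 ((α ^ β : ℝ) : ℂ) D) (4 * D - 2)) ∧
    -- products, rational functions
    (∀ (s : ℕ) (g : Fin s → ℝ), MultIndep g →
      FewProds g (ratExps s ![((α ^ β : ℝ) : ℂ)] D) (8 * D - 4) ∧
      ∀ (k : ℕ) (t : Fin k → ℂ),
        FewProds g (ratExps s t D) (2 * ((4 * D) ^ k - 2 ^ k))) ∧
    -- algebraic numbers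
    ∀ x : ℂ, x ≠ 0 → IsAlgebraic ℚ x → x ∈ Prods := by
  have hz := gs_real hα hα1 hα' hβ' hβ
  have h1 : ∀ x : ℂ, Transcendental ℚ x → FewPowers (affine x) 2 := by
    intro x hx
    refine fewPowers_of fun m l hl hlL h => ?_
    have h1 := lt_poly (D := 1) hx le_rfl m l hl hlL fun i => by
      obtain ⟨y, hy, hyl⟩ := h i
      obtain ⟨P, h1, h2, rfl⟩ := affine_poly hy
      exact ⟨P, h1, h2, hyl⟩
    omega
  have hαi : ∀ c : Fin 1 → ℤ, ∏ j, (![α] : Fin 1 → ℝ) j ^ c j = 1 → c = 0 := by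
    intro c hc
    rw [Fin.prod_univ_one] at hc
    have h2 : (c 0 : ℝ) * Real.log α = 0 := by
      have h3 := congrArg Real.log hc
      rw [Real.log_zpow, Real.log_one] at h3
      exact h3
    have h3 : Real.log α ≠ 0 := Real.log_ne_zero_of_pos_of_ne_one hα hα1
    have h4 : (c 0 : ℝ) = 0 := (mul_eq_zero.mp h2).resolve_right h3
    funext i
    fin_cases i
    exact_mod_cast h4
  have e1 : ∀ D : ℕ, 1 ≤ D → 2 * ((4 * D) ^ 1 - 2 ^ 1) = 8 * D - 4 := by
    intro D hD
    rw [pow_one, pow_one]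
    omega
  refine ⟨hz, fun N => (h1 _ hz).2 α hα hα' N, h1, fun D hD => ⟨fun x hx => part_poly hx hD,
    ⟨?_, fun k t => part_rat t hD⟩, fun x hx s g hg => part_polyExps hx hD g hg,
    part_polyExps hz hD _ ⟨fun j => by fin_cases j; exact hα,
      fun j => by fin_cases j; exact hα', hαi⟩,
    fun s g hg => ⟨?_, fun k t => part_ratExps t hD g hg⟩, fun x hx0 hx => ?_⟩⟩
  · have h := part_rat ![((α ^ β : ℝ) : ℂ)] hD
    rwa [e1 D hD] at h
  · have h := part_ratExps ![((α ^ β : ℝ) : ℂ)] hD g hg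
    rwa [e1 D hD] at h
  · refine ⟨Complex.log x, Submodule.subset_span (Or.inr ?_), Complex.exp_log hx0⟩
    rw [Set.mem_setOf_eq, Complex.exp_log hx0]
    exact hx

end Pool.Agent.Results.MP_93d8d2_nt.BasesAndExponentsInQbarZ
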