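import Pool.Agent.Run7.h788.Tow

/-!
# Towers `a ^ (β ^ c)` with middle entries in finitely generated groups: several towers, relative to
# arbitrary numbers

The number of the problem is `√2 ^ (√2 ^ √2)`, a tower `a ^ (β ^ c)` with the middle entry `β = √2`.  We
let the middle entry run through a finitely generated multiplicative group of algebraic numbers

  `β = β_1 ^ {m_1} ⋯ β_k ^ {m_k}`

(for instance with `β_1 = √2`), and consider several such towers `T_j = a_j ^ (β(j) ^ {c_j})`, `j ≤ n`,
where the `a_j` are ARBITRARY and also the `c_j` are ARBITRARY irrational numbers, algebraic or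
transcendental (for instance `c = √2`, or `c = √2 ^ √2`, which gives towers of height four, and towers of
any height in the same way).  Let all the exponents `m_{j,i}` be in a finite nonempty set `A` of integers,
for instance `A = {0, 1}`, where `β(j)` runs through the products of the subsets of a set of numbers.

**Theorem.** For all `n`, `N` there are `k₀`, `C` and `δ > 0` such that for all `k ≥ k₀`, all these data
and all spaces `F` of complex numbers of dimension at most `N` over the field of algebraic numbers, for all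
but `C |A| ^ (n k - δ k)` of the `|A| ^ (n k)` tuples `m`:

(1) the numbers `y_j = v_j exp(c_j (m_{j,1} λ_{j,1} + … + m_{j,k} λ_{j,k}))`, for `v_j = log a_j` and
`λ_{j,i} = log β_{j,i}` the logarithms of the towers, are linearly independent over the field of algebraic
numbers modulo `LogForms + F`, where `LogForms` are the linear forms in `1` and logarithms of algebraic
numbers with algebraic coefficients.  Here the `v_j ≠ 0` and `c_j ∉ ℚ` are arbitrary complex numbers, and
for all `j` the `λ_{j,i}` are any logarithms of algebraic numbers, linearly independent over `ℚ`;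

(2) in particular for real `a_j`, `c_j`, `β_{j,i}` the numbers `e^f T_1^{α_1} ⋯ T_n^{α_n}` are
transcendental for ALL algebraic numbers `α_1, …, α_n` which are not all `0` and all `f` in `F`.

In the starting results of this problem (`AlmostAllMiddleEntries`, `MiddleEntriesRate`,
`GeneralizedTowers`) the middle entry of one tower with an algebraic exponent `c` runs through all the
integers `n ≤ x`, and the number of exceptions is `O(x (log log x)^C / log x)`; the set of the middle entries
here is much sparser than such a bound can see, the bound is a power saving, several towers are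
independent of each other and of given numbers, and `c` is arbitrary.

**The proof.**  The exceptional set contains no cube `β + ∑_{i ∈ S} u_i`, `S ⊆ {1, …, r}`, where
`u_1, …, u_r` are vectors with disjoint supports: by the theorems of Gelfond and Schneider and on six
exponentials at most two of the numbers `X_i = exp(c λ(u_i))` are algebraic (`few_bad`); if the others are
transcendental, the products of some of them times `v exp(c λ(β))` generate a space of dimension at least
`2 N + 3` (`card_cubeSp`), and by the strong six exponentials theorem modulo a space of finite dimension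
(`six_mod`) this space times `X_{i₀}` is not contained in `LogForms + F`.  Sets without such cubes are small
by an iterated Cauchy-Schwarz inequality (`Pool.Agent.Y918.OL.cube_count`).
-/

set_option autoImplicit false

noncomputable section

namespace Pool.Agent.Results.MP_93d8d2_nt.MiddleEntriesInGroups

/-- The field of algebraic numbers. -/
abbrev Qbar : IntermediateField ℚ ℂ := algebraicClosure ℚ ℂ

/-- The linear combinations, with algebraic coefficients, of `1` and logarithms of algebraic numbers. -/
def LogForms : Submodule Qbar ℂ :=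
  Submodule.span Qbar ({1} ∪ {z : ℂ | IsAlgebraic ℚ (Complex.exp z)})

/-- The numbers `y_1, …, y_n` are linearly independent modulo `L`, over the algebraic numbers. -/
def IndependentMod (L : Submodule Qbar ℂ) {n : ℕ} (y : Fin n → ℂ) : Prop :=
  ∀ a : Fin n → Qbar, ∑ j, a j • y j ∈ L → ∀ j, a j = 0

/-- The tower `a ^ (β ^ c)` with the middle entry `β = β_1 ^ {m_1} ⋯ β_k ^ {m_k}`. -/
def tower (a c : ℝ) {k : ℕ} (β : Fin k → ℝ) (m : Fin k → ℤ) : ℝ := a ^ ((∏ i, β i ^ m i) ^ c)

/-- All the numbers `e ^ f T_1 ^ {α_1} ⋯ T_n ^ {α_n}`, with algebraic `α_j` which are not all `0` and with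
`f` in `F`, are transcendental. -/
def TranscendentalProducts (F : Submodule Qbar ℂ) {n : ℕ} (T : Fin n → ℝ) : Prop :=
  ∀ α : Fin n → ℂ, (∀ j, IsAlgebraic ℚ (α j)) → (∃ j, α j ≠ 0) → ∀ f ∈ F,
    ¬ IsAlgebraic ℚ (Complex.exp (f + ∑ j, α j * ((Real.log (T j) : ℝ) : ℂ)))

open Classical in
/-- **Main result.** -/
theorem result (n N : ℕ) : ∃ (k₀ C : ℕ) (δ : ℝ), 0 < δ ∧ ∀ k ≥ k₀,
    ∀ A : Finset ℤ, A.Nonempty →
    ∀ F : Submodule Qbar ℂ, Module.Finite Qbar F → Module.finrank Qbar F ≤ N →
    (∀ v c : Fin n → ℂ, (∀ j, v j ≠ 0) → (∀ j, ∀ q : ℚ, c j ≠ q) →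
      ∀ lam : Fin n → Fin k → ℂ, (∀ j i, IsAlgebraic ℚ (Complex.exp (lam j i))) →
      (∀ j, LinearIndependent ℚ (lam j)) →
      (((Fintype.piFinset fun _ : Fin n => Fintype.piFinset fun _ : Fin k => A).filter (fun m =>
        ¬ IndependentMod (LogForms ⊔ F)
          (fun j => v j * Complex.exp (c j * ∑ i, (m j i : ℂ) * lam j i)))).card : ℝ) ≤
        C * (A.card : ℝ) ^ ((n * k : ℝ) - δ * k)) ∧
    (∀ a c : Fin n → ℝ, (∀ j, 0 < a j ∧ a j ≠ 1) → (∀ j, Irrational (c j)) →
      ∀ β : Fin n → Fin k → ℝ, (∀ j i, 0 < β j i ∧ IsAlgebraic ℚ (β j i)) →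
      (∀ j, LinearIndependent ℚ (fun i => Real.log (β j i))) →
      (((Fintype.piFinset fun _ : Fin n => Fintype.piFinset fun _ : Fin k => A).filter (fun m =>
        ¬ TranscendentalProducts F (fun j => tower (a j) (c j) (β j) (m j)))).card : ℝ) ≤
        C * (A.card : ℝ) ^ ((n * k : ℝ) - δ * k)) := by
  obtain ⟨k₀, C, δ, hδ, h⟩ := Run7.h788.Tow.rand_tow n N
  refine ⟨k₀, C, δ, hδ, fun k hk A hA F hF hFN => ⟨fun v c hv hc lam hlam hli =>
    h k hk v c hv hc lam hlam hli A hA F hF hFN, fun a c ha hc β hβ hli => ?_⟩⟩
  have h1 := h k hk (fun j => ((Real.log (a j) : ℝ) : ℂ)) (fun j => ((c j : ℝ) : ℂ))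
    (fun j => by
      rw [Complex.ofReal_ne_zero]
      exact Real.log_ne_zero_of_pos_of_ne_one (ha j).1 (ha j).2)
    (fun j q hq => hc j ⟨q, by exact_mod_cast hq.symm⟩)
    (fun j i => ((Real.log (β j i) : ℝ) : ℂ))
    (fun j i => by
      rw [← Complex.ofReal_exp, Real.exp_log (hβ j i).1]
      exact (hβ j i).2.algebraMap (A := ℂ))
    (fun j => by
      have := (hli j).map' ((Complex.ofRealAm.toLinearMap).restrictScalars ℚ) (by
        rw [LinearMap.ker_eq_bot]
        exact Complex.ofReal_injective)
      exact this) A hA F hF hFN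
  refine le_trans (Nat.cast_le.2 (Finset.card_le_card ?_)) h1
  intro m hm
  rw [Finset.mem_filter] at hm ⊢
  refine ⟨hm.1, fun hG => hm.2 ?_⟩
  intro α hα hne f hf hexp
  have hval : ∀ j, ((Real.log (tower (a j) (c j) (β j) (m j)) : ℝ) : ℂ) =
      ((Real.log (a j) : ℝ) : ℂ) *
        Complex.exp (((c j : ℝ) : ℂ) * ∑ i, (m j i : ℂ) * ((Real.log (β j i) : ℝ) : ℂ)) := by
    intro j
    unfold tower
    have hpos : 0 < ∏ i, β j i ^ m j i :=
      Finset.prod_pos fun i _ => zpow_pos (hβ j i).1 _
    rw [Real.log_rpow (ha j).1, Real.rpow_def_of_pos hpos, Real.log_prod (fun i _ =>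
      (zpow_pos (hβ j i).1 _).ne')]
    simp only [Real.log_zpow]
    push_cast
    rw [mul_comm (∑ i, (m j i : ℂ) * ((Real.log (β j i) : ℝ) : ℂ)), mul_comm]
  obtain ⟨j, hj⟩ := hne
  have h2 := hG (fun j => (⟨α j, Pool.Agent.H301R2.SSE.mem_QB.2 (hα j)⟩ : Qbar)) ?_ j
  · exact hj (congrArg Subtype.val h2)
  · have h3 : f + ∑ j, α j * ((Real.log (tower (a j) (c j) (β j) (m j)) : ℝ) : ℂ) ∈
        Pool.Agent.H301R2.SSE.Lt := Submodule.subset_span (Or.inr hexp)
    simp only [hval] at h3
    have h4 := Submodule.sub_mem (Pool.Agent.H301R2.SSE.Lt ⊔ F) (Submodule.mem_sup_left h3)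
      (Submodule.mem_sup_right hf)
    rw [add_sub_cancel_left] at h4
    exact h4

end Pool.Agent.Results.MP_93d8d2_nt.MiddleEntriesInGroups
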