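import Pool.Agent.Run7.h119.RX.Poly
import Pool.Agent.Run7.h119.RX.GS

/-!
# Towers whose exponents are in a finitely generated ring

The number of the problem is `w = T_3`, where `T_0 = 1` and `T_{k+1} = √2 ^ {T_k}`, so that `T_2 = z = √2 ^ √2`.
It is the member `P = X` of the family `√2 ^ {P(z)}`, and of the families `√2 ^ {P(T_2, …, T_{n+1})}`, with
polynomials `P` in `n` variables.  We consider arbitrary complex numbers `t_1, …, t_n` (nothing is assumed on
them; they may be the numbers `T_2, …, T_{n+1}`, or `z, w, e, π, log 2`) and the space `values t D` of the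
values at `(t_1, …, t_n)` of the polynomials with algebraic coefficients of degree less than `D` in each
variable.  Let `H` be the dimension of this space over the field of algebraic numbers (`H = D^n` if the `t_i`
are algebraically independent, and `H ≥ D` if one `t_i` is transcendental).  `LogForms` is the space of the
linear forms in `1` and logarithms of algebraic numbers, with algebraic coefficients: `x` is in this space if
`e^x` is algebraic, or a product of powers `α^β` of algebraic numbers with algebraic exponents and of `e^γ`,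
`γ` algebraic.  Let `F` be any space of complex numbers of finite dimension `N` over the field of algebraic
numbers.

**Theorem.** (1) Let `V` be a space of dimension `k` of complex numbers, for instance the space generated by
`k` logarithms `log a_j` of arbitrary numbers.  The elements of `LogForms + F` which are linear combinations
of elements of `V` with coefficients in `values t D` form a space of dimension at most
`(4^n + 1) √(k H) + 2^n k + N` (out of `k H`, if the `log a_j` are independent over `ℚ̄(t)`).

(2) For `c ≠ 0` the `x` in `values t D` for which `c x` is in `LogForms + F` form a space of dimension at most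
`(4^n + 1) √H + N`.  So among any `m > (4^n + 1) √H + N` linearly independent exponents `x_i` in `values t D`
there is one such that all the numbers `exp(c x_i + f)`, `f` in `F`, are transcendental (`c = log a` for the powers
`a^x`).

(3) For real `t_i` and real `a > 0`, `a ≠ 1`, there are at most

  `(2 M + 1) ^ (D^n - H + (4^n + 1) √H)`

polynomials `P`, out of `(2 M + 1) ^ (D^n)`, with integral coefficients of absolute value at most `M` and of
degree less than `D` in each variable, for which `a ^ {P(t_1, …, t_n)}` is algebraic.  In particular this holds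
for the towers `√2 ^ {P(T_2, …, T_{n+1})}`, and here `H ≥ D`.

(4) For at most `(2 M + 1) ^ (2 √D + 1)` of the `(2 M + 1) ^ (D + 1)` integral polynomials `P` in one variable of
degree at most `D` with coefficients of absolute value at most `M` the number `√2 ^ {P(√2 ^ √2)}` is algebraic.

The starting results of this problem are about one tower `a ^ (n ^ c)` whose middle entry `n` runs through the
integers (and `MiddleEntriesInGroups` about middle entries in groups); here the bases are fixed
and arbitrary, and the exponents run through a ring.  The starting theorem `MP_9cd479_nt.RationalExponents` is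
about one number `t` (`4 D` in place of `2 √D + 1`), and `MP_58ae59_nt.PolynomialExponents`,
`MP_ce1852_nt.PolynomialsInTowers` (helper788) treat polynomials in `e`, and polynomials in several iterated
exponentials of `e` with a bound of the order `√D` only if the degrees in the other variables are bounded.  The
bound of the order `√H` for arbitrary numbers `t_1, …, t_n`, and the number of integral polynomials, are new.

**The proof.**  Let `X` be the space of the values of degree less than `h` and `W` the space in
question.  The product inequality `dim X dim W ≤ dim X W + dim X (dim X - 1 + N)`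
(`Pool.Agent.W254.HP.product_le`, `Run7.h788.ExpSp.product_mod`) is the hyperplane case of the linear subgroup
theorem of Waldschmidt and Roy.  Here `X W` is in the space of degree less than `2 D`, which has dimension at
most `2^n k H` (`boxV_double`), and `h` is chosen such that `dim X` is near `√(k H)`, which is possible since
`dim X` grows at most by the factor `2^n` in one step.  The integral points of height at most `M` of a space of
dimension `d` are at most `(2 M + 1)^d`.
-/

set_option autoImplicit false

noncomputable section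

namespace Pool.Agent.Results.MP_93d8d2_nt.RingExponents

/-- The field of algebraic numbers. -/
abbrev Qbar : IntermediateField ℚ ℂ := algebraicClosure ℚ ℂ

/-- The linear combinations, with algebraic coefficients, of `1` and logarithms of algebraic numbers. -/
def LogForms : Submodule Qbar ℂ :=
  Submodule.span Qbar ({1} ∪ {z : ℂ | IsAlgebraic ℚ (Complex.exp z)})

/-- The values at `(t_1, …, t_n)` of the polynomials with algebraic coefficients of degree less than `D` in
each variable. -/
def values {n : ℕ} (t : Fin n → ℂ) (D : ℕ) : Submodule Qbar ℂ :=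
  Submodule.span Qbar (Set.range fun e : Fin n → Fin D => ∏ i, t i ^ (e i : ℕ))

/-- The dimension of the space of the values. -/
def dimV {n : ℕ} (t : Fin n → ℂ) (D : ℕ) : ℕ := Module.finrank Qbar (values t D)

/-- The towers `T_0 = 1`, `T_{k+1} = √2 ^ {T_k}`. -/
def T : ℕ → ℝ
  | 0 => 1
  | k + 1 => √2 ^ T k

/-- Statement (1); `V * values t D` is the space generated by the products. -/
def ManyBases : Prop :=
  ∀ (V F : Submodule Qbar ℂ), Module.Finite Qbar V → Module.Finite Qbar F →
    ∀ (n : ℕ) (t : Fin n → ℂ) (D : ℕ),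
      (Module.finrank Qbar ((V * values t D) ⊓ (LogForms ⊔ F) : Submodule Qbar ℂ) : ℝ) ≤
        (4 ^ n + 1) * √((Module.finrank Qbar V : ℝ) * dimV t D) + 2 ^ n * Module.finrank Qbar V +
          Module.finrank Qbar F

/-- Statement (2). -/
def OneTranscendental : Prop :=
  ∀ (F : Submodule Qbar ℂ), Module.Finite Qbar F → ∀ (n : ℕ) (t : Fin n → ℂ) (c : ℂ), c ≠ 0 →
    ∀ D : ℕ, 1 ≤ D →
      (Module.finrank Qbar (values t D ⊓ (LogForms ⊔ F).comap (LinearMap.mulLeft Qbar c) :
        Submodule Qbar ℂ) : ℝ) ≤ (4 ^ n + 1) * √(dimV t D : ℝ) + Module.finrank Qbar F ∧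
      ∀ (m : ℕ) (x : Fin m → ℂ), (∀ i, x i ∈ values t D) → LinearIndependent Qbar x →
        (4 ^ n + 1) * √(dimV t D : ℝ) + Module.finrank Qbar F < m →
        ∃ i, ∀ f ∈ F, Transcendental ℚ (Complex.exp (c * x i + f))

/-- Statement (3). -/
def FewPolynomials : Prop :=
  ∀ (n : ℕ) (t : Fin n → ℝ) (a : ℝ), 0 < a → a ≠ 1 → ∀ D : ℕ, 1 ≤ D → ∀ (M : ℕ)
    (A : Finset ((Fin n → Fin D) → ℤ)),
    (∀ P ∈ A, (∀ e, |P e| ≤ M) ∧ IsAlgebraic ℚ (a ^ (∑ e, (P e : ℝ) * ∏ i, t i ^ (e i : ℕ)))) →
    (A.card : ℝ) ≤ (2 * M + 1) ^ ((D : ℝ) ^ n - dimV (fun i => (t i : ℂ)) D +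
      (4 ^ n + 1) * √(dimV (fun i => (t i : ℂ)) D : ℝ))

/-- Statement (3) for towers. -/
def FewTowers : Prop :=
  ∀ n : ℕ, 1 ≤ n → ∀ D : ℕ, 1 ≤ D → D ≤ dimV (fun i : Fin n => ((T (i + 2) : ℝ) : ℂ)) D ∧
    ∀ (M : ℕ) (A : Finset ((Fin n → Fin D) → ℤ)),
    (∀ P ∈ A, (∀ e, |P e| ≤ M) ∧
      IsAlgebraic ℚ (√2 ^ (∑ e, (P e : ℝ) * ∏ i : Fin n, T (i + 2) ^ (e i : ℕ)))) →
    (A.card : ℝ) ≤ (2 * M + 1) ^ ((D : ℝ) ^ n - dimV (fun i : Fin n => ((T (i + 2) : ℝ) : ℂ)) D +
      (4 ^ n + 1) * √(dimV (fun i : Fin n => ((T (i + 2) : ℝ) : ℂ)) D : ℝ))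

/-- Statement (4). -/
def FewPowers : Prop :=
  ∀ (D M : ℕ) (A : Finset (Fin (D + 1) → ℤ)),
    (∀ P ∈ A, (∀ e, |P e| ≤ M) ∧
      IsAlgebraic ℚ (√2 ^ (∑ e : Fin (D + 1), (P e : ℝ) * (√2 ^ √2) ^ (e : ℕ)))) →
    (A.card : ℝ) ≤ (2 * M + 1) ^ (2 * √(D : ℝ) + 1)

theorem log_mem {a : ℝ} (ha : 0 < a) {x : ℝ} (h : IsAlgebraic ℚ (a ^ x)) :
    ((Real.log a : ℝ) : ℂ) * (x : ℂ) ∈ LogForms := by
  refine Submodule.subset_span (Or.inr ?_)
  have h1 := h.algebraMap (A := ℂ)
  have h2 : Complex.exp (((Real.log a : ℝ) : ℂ) * (x : ℂ)) = algebraMap ℝ ℂ (a ^ x) := by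
    rw [← Complex.ofReal_mul, ← Complex.ofReal_exp, Real.rpow_def_of_pos ha]
    rfl
  change IsAlgebraic ℚ (Complex.exp _)
  rw [h2]
  exact h1

theorem fewPolynomials : FewPolynomials := by
  intro n t a ha ha1 D hD M A hA
  have hc : ((Real.log a : ℝ) : ℂ) ≠ 0 := by
    rw [Complex.ofReal_ne_zero]
    intro h0
    rcases Real.log_eq_zero.1 h0 with h | h | h
    · exact ha.ne' h
    · exact ha1 h
    · linarith
  have h := Run7.h119.RX.count_poly (⊥ : Submodule Qbar ℂ) (fun i => (t i : ℂ)) hc hD M A
    (fun P hP => ⟨(hA P hP).1, by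
      have h1 := log_mem ha (hA P hP).2
      rw [sup_bot_eq]
      convert h1 using 2
      · rfl
      · push_cast
        rfl⟩)
  rw [finrank_bot, Nat.cast_zero, add_zero] at h
  exact h

theorem tower_two : T 2 = √2 ^ √2 := by
  change √2 ^ (√2 ^ (1 : ℝ)) = _
  rw [Real.rpow_one]

/-- the number of the problem -/
theorem tower_three : T 3 = √2 ^ (√2 ^ √2) := by
  change √2 ^ T 2 = _
  rw [tower_two]

/-- **Main result.** -/
theorem result : T 3 = √2 ^ (√2 ^ √2) ∧ ManyBases ∧ OneTranscendental ∧ FewPolynomials ∧ FewTowers ∧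
    FewPowers := by
  have h2 : (0 : ℝ) < √2 := by positivity
  have h21 : (√2 : ℝ) ≠ 1 := by
    have h1 : (1 : ℝ) < √2 := by
      rw [Real.lt_sqrt (by norm_num)]
      norm_num
    exact h1.ne'
  have htr : Transcendental ℚ ((T 2 : ℝ) : ℂ) := by
    rw [tower_two]
    exact Run7.h119.RX.trans_sqrt_two_pow
  refine ⟨tower_three, ?_, ?_, fewPolynomials, ?_, ?_⟩
  · intro V F hV hF n t D
    exact Run7.h119.RX.many V F t D
  · intro F hF n t c hc D hD
    have hb := Run7.h119.RX.one F t hc hD
    refine ⟨hb, ?_⟩
    intro m x hx hli hm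
    by_contra hno
    push Not at hno
    have h1 : ∀ i, x i ∈ Run7.h119.RX.exps (LogForms ⊔ F) t c D := by
      intro i
      obtain ⟨f, hf, h3⟩ := hno i
      refine ⟨hx i, ?_⟩
      have h4 : IsAlgebraic ℚ (Complex.exp (c * x i + f)) := by
        by_contra h5
        exact h3 h5
      have h5 : c * x i + f ∈ LogForms := Submodule.subset_span (Or.inr h4)
      have h6 := Submodule.sub_mem (LogForms ⊔ F) (Submodule.mem_sup_left h5)
        (Submodule.mem_sup_right hf)
      rw [add_sub_cancel_right] at h6
      exact h6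
    have h7 : Submodule.span Qbar (Set.range x) ≤ Run7.h119.RX.exps (LogForms ⊔ F) t c D := by
      rw [Submodule.span_le]
      rintro _ ⟨i, rfl⟩
      exact h1 i
    have : Module.Finite Qbar (Run7.h119.RX.exps (LogForms ⊔ F) t c D) :=
      Submodule.finiteDimensional_of_le
        (inf_le_left : Run7.h119.RX.exps (LogForms ⊔ F) t c D ≤ Pool.Agent.W254.HP.boxV t D)
    have h8 := Submodule.finrank_mono h7
    rw [finrank_span_eq_card hli, Fintype.card_fin] at h8
    have h9 : (m : ℝ) ≤ Module.finrank Qbar (Run7.h119.RX.exps (LogForms ⊔ F) t c D) := by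
      exact_mod_cast h8
    have h10 : (Module.finrank Qbar (Run7.h119.RX.exps (LogForms ⊔ F) t c D) : ℝ) ≤
      (4 ^ n + 1) * √(dimV t D : ℝ) + Module.finrank Qbar F := hb
    linarith
  · intro n hn D hD
    refine ⟨?_, ?_⟩
    · exact Run7.h119.RX.le_box (fun i : Fin n => ((T (i + 2) : ℝ) : ℂ)) ⟨0, hn⟩ (by
        simpa using htr) D
    · intro M A hA
      exact fewPolynomials n (fun i => T (i + 2)) √2 h2 h21 D hD M A hA
  · intro D M A hA
    have hc : ((Real.log √2 : ℝ) : ℂ) ≠ 0 := by
      rw [Complex.ofReal_ne_zero]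
      intro h0
      rcases Real.log_eq_zero.1 h0 with h | h | h
      · exact h2.ne' h
      · exact h21 h
      · linarith
    rw [tower_two] at htr
    have h := Run7.h119.RX.count_one (⊥ : Submodule Qbar ℂ) htr hc D M A
      (fun P hP => ⟨(hA P hP).1, by
        have h1 := log_mem h2 (hA P hP).2
        rw [sup_bot_eq]
        convert h1 using 2
        · rfl
        · push_cast
          rfl⟩)
    rw [finrank_bot, Nat.cast_zero, add_zero] at h
    exact h

end Pool.Agent.Results.MP_93d8d2_nt.RingExponents
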